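import Mathlib

/-!
# The semiprime question for the difference-of-squares array is binary Goldbach

`a` is the sequence obtained by concatenating the antidiagonals
`(c+1)^2 - t^2`, `t = c, c-1, ..., 0`, for `c = 0, 1, 2, ...`.

We show that for every `n ≥ 1` there is exactly one index `i` with `a i = 2n+1` and
`a (i+n+1) = 2n+3`, namely `i = n(n+1)/2`; hence the assertion of the question for a given `n`
is equivalent to `2n+2` being a sum of two primes, and the whole question is equivalent to the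
binary Goldbach conjecture.
-/

namespace Pool.Agent.Results.MP_31dd60_nt.QOneIffGoldbach

/-- The number of the antidiagonal that contains index `N`: the largest `c` with
`c(c+1)/2 ≤ N`. -/
def diag (N : ℕ) : ℕ := Nat.findGreatest (fun c => c * (c + 1) / 2 ≤ N) N

/-- The sequence `a`: for `N = c(c+1)/2 + s` with `0 ≤ s ≤ c`, `a N = (c+1)^2 - (c-s)^2`. -/
def a (N : ℕ) : ℕ :=
  (diag N + 1) ^ 2 - (diag N - (N - diag N * (diag N + 1) / 2)) ^ 2

/-- A semiprime: a product of two primes, not necessarily distinct. -/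
def IsSemiprime (m : ℕ) : Prop := ∃ p q : ℕ, p.Prime ∧ q.Prime ∧ m = p * q

/-- The assertion of the question for the number `n` and the index `i`: if `a i = 2n+1` and
`a (i+n+1) = 2n+3`, then some term strictly between them is a semiprime. -/
def Claim (n i : ℕ) : Prop :=
  a i = 2 * n + 1 → a (i + n + 1) = 2 * n + 3 →
    ∃ k, i < k ∧ k < i + n + 1 ∧ IsSemiprime (a k)

/-- `m` is a sum of two primes. -/
def IsSumTwoPrimes (m : ℕ) : Prop := ∃ p q : ℕ, p.Prime ∧ q.Prime ∧ m = p + q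

theorem two_dvd_tri (c : ℕ) : 2 ∣ c * (c + 1) := (Nat.even_mul_succ_self c).two_dvd

theorem tri_succ (c : ℕ) : (c + 1) * (c + 1 + 1) / 2 = c * (c + 1) / 2 + (c + 1) := by
  obtain ⟨k, hk⟩ := two_dvd_tri c
  obtain ⟨l, hl⟩ := two_dvd_tri (c + 1)
  rw [hk, hl, Nat.mul_div_cancel_left _ (by norm_num), Nat.mul_div_cancel_left _ (by norm_num)]
  nlinarith

theorem tri_mono {c d : ℕ} (h : c ≤ d) : c * (c + 1) / 2 ≤ d * (d + 1) / 2 := by
  apply Nat.div_le_div_right
  exact Nat.mul_le_mul h (by omega)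

theorem self_le_tri (c : ℕ) : c ≤ c * (c + 1) / 2 := by
  induction c with
  | zero => simp
  | succ c ih => rw [tri_succ]; omega

theorem diag_tri (c s : ℕ) (hs : s ≤ c) : diag (c * (c + 1) / 2 + s) = c := by
  unfold diag
  rw [Nat.findGreatest_eq_iff]
  refine ⟨?_, fun _ => by omega, ?_⟩
  · exact (self_le_tri c).trans (Nat.le_add_right _ _)
  · intro d hcd _ hd
    have h1 : (c + 1) * (c + 1 + 1) / 2 ≤ d * (d + 1) / 2 := tri_mono hcd
    rw [tri_succ] at h1
    omega

theorem a_tri (c s : ℕ) (hs : s ≤ c) :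
    a (c * (c + 1) / 2 + s) = (c + 1) ^ 2 - (c - s) ^ 2 := by
  unfold a
  rw [diag_tri c s hs, Nat.add_sub_cancel_left]

theorem exists_tri (N : ℕ) : ∃ c s, s ≤ c ∧ N = c * (c + 1) / 2 + s := by
  refine ⟨diag N, N - diag N * (diag N + 1) / 2, ?_, ?_⟩
  · have h : ¬ (diag N + 1) * (diag N + 1 + 1) / 2 ≤ N := by
      intro h
      have h2 : diag N + 1 ≤ N := (self_le_tri _).trans h
      have h3 := Nat.le_findGreatest (P := fun c => c * (c + 1) / 2 ≤ N) h2 h
      change diag N + 1 ≤ diag N at h3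
      omega
    rw [tri_succ] at h
    omega
  · have h : diag N * (diag N + 1) / 2 ≤ N :=
      Nat.findGreatest_spec (P := fun c => c * (c + 1) / 2 ≤ N) (Nat.zero_le N) (by simp)
    omega

/-- Integer form of the uniqueness statement. -/
theorem key {n m d m' d' : ℤ} (hn : 1 ≤ n) (hd : 0 ≤ d) (hdm : d + 1 ≤ m) (hd' : 0 ≤ d')
    (hdm' : d' + 1 ≤ m') (h1 : m ^ 2 - d ^ 2 = 2 * n + 1) (h2 : m' ^ 2 - d' ^ 2 = 2 * n + 3)
    (h3 : (m' - 1) * m' + 2 * (m' - 1 - d') = (m - 1) * m + 2 * (m - 1 - d) + 2 * n + 2) :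
    d = m - 1 := by
  obtain ⟨f, hf⟩ : ∃ f : ℤ, f = m - d' + 1 := ⟨_, rfl⟩
  obtain ⟨u, hu⟩ : ∃ u : ℤ, u = m - d := ⟨_, rfl⟩
  have hd'f : d' = m - f + 1 := by omega
  have hdu : d = m - u := by omega
  subst hd'f hdu
  have hu1 : 1 ≤ u := by omega
  have hum : u ≤ m := by omega
  have e1 : m' = m * (2 * f - 1) - f ^ 2 + 2 * u := by nlinarith
  have e2 : m' ^ 2 = m ^ 2 + 2 * m * (u - f + 1) + (f - 1) ^ 2 - u ^ 2 + 2 := by nlinarith
  have hm2 : 2 ≤ m := by
    by_contra hm
    have hm1 : m = 1 := by omega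
    have hu11 : u = 1 := by omega
    subst hm1 hu11
    nlinarith
  rcases lt_trichotomy f 1 with hf1 | hf1 | hf1
  · exfalso
    have hf0 : f ≤ 0 := by omega
    have : m * (2 * f - 1) ≤ -m := by nlinarith
    nlinarith [sq_nonneg f]
  · subst hf1
    have h : (u - 1) * (2 * m + 5 * u + 1) = 0 := by
      rw [e1] at e2
      nlinarith
    rcases mul_eq_zero.mp h with h | h
    · omega
    · omega
  · exfalso
    have hfm : f ≤ m + 1 := by omega
    rcases eq_or_lt_of_le hm2 with hm | hm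
    · subst hm
      have : f = 2 ∨ f = 3 := by omega
      have : u = 1 ∨ u = 2 := by omega
      rcases ‹f = 2 ∨ f = 3› with rfl | rfl <;> rcases ‹u = 1 ∨ u = 2› with rfl | rfl <;>
        norm_num at e1 <;> subst e1 <;> norm_num at e2
    · have hm3 : 3 ≤ m := by omega
      have g1 : 3 * m - 4 + 2 * u ≤ m' := by
        have : 0 ≤ (f - 2) * (2 * m - f - 2) := mul_nonneg (by omega) (by omega)
        nlinarith
      have g2 : m' ^ 2 ≤ m ^ 2 + 2 * m * u - 2 * m + 3 - u ^ 2 := by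
        have : 0 ≤ (f - 2) * (2 * m - f) := mul_nonneg (by omega) (by omega)
        nlinarith
      have g3 : (3 * m - 4 + 2 * u) ^ 2 ≤ m' ^ 2 := by
        apply pow_le_pow_left₀ (by omega) g1
      nlinarith [mul_nonneg (show (0:ℤ) ≤ m - 3 by omega) (show (0:ℤ) ≤ u - 1 by omega),
        mul_nonneg (show (0:ℤ) ≤ m - 3 by omega) (show (0:ℤ) ≤ m - 3 by omega),
        mul_nonneg (show (0:ℤ) ≤ u - 1 by omega) (show (0:ℤ) ≤ u - 1 by omega)]

/-- The system satisfied by a pair of indices has only the standard solution. -/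
theorem pair_unique {n c s c' s' : ℕ} (hn : 1 ≤ n) (hs : s ≤ c) (hs' : s' ≤ c')
    (h1 : (c + 1) ^ 2 - (c - s) ^ 2 = 2 * n + 1) (h2 : (c' + 1) ^ 2 - (c' - s') ^ 2 = 2 * n + 3)
    (h3 : c' * (c' + 1) / 2 + s' = c * (c + 1) / 2 + s + n + 1) : c = n ∧ s = 0 := by
  obtain ⟨d, rfl⟩ : ∃ d, c = s + d := ⟨c - s, by omega⟩
  obtain ⟨d', rfl⟩ : ∃ d', c' = s' + d' := ⟨c' - s', by omega⟩
  rw [Nat.add_sub_cancel_left] at h1 h2
  have g1 : (s + d + 1) ^ 2 = d ^ 2 + (2 * n + 1) := by omega
  have g2 : (s' + d' + 1) ^ 2 = d' ^ 2 + (2 * n + 3) := by omega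
  have g3 : (s' + d') * (s' + d' + 1) + 2 * s' = (s + d) * (s + d + 1) + 2 * s + 2 * n + 2 := by
    obtain ⟨k, hk⟩ := two_dvd_tri (s + d)
    obtain ⟨l, hl⟩ := two_dvd_tri (s' + d')
    rw [hk, hl, Nat.mul_div_cancel_left _ (by norm_num),
      Nat.mul_div_cancel_left _ (by norm_num)] at h3
    rw [hk, hl]
    omega
  have h := key (n := n) (m := s + d + 1) (d := d) (m' := s' + d' + 1) (d' := d')
    (by exact_mod_cast hn) (by positivity) (by linarith [Int.natCast_nonneg s]) (by positivity)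
    (by linarith [Int.natCast_nonneg s'])
    (by have := congrArg (Nat.cast : ℕ → ℤ) g1; push_cast at this; linarith)
    (by have := congrArg (Nat.cast : ℕ → ℤ) g2; push_cast at this; linarith)
    (by have := congrArg (Nat.cast : ℕ → ℤ) g3; push_cast at this; linarith)
  have hs0 : s = 0 := by omega
  subst hs0
  refine ⟨?_, rfl⟩
  nlinarith

theorem index_unique (n i : ℕ) (hn : 1 ≤ n) :
    (a i = 2 * n + 1 ∧ a (i + n + 1) = 2 * n + 3) ↔ i = n * (n + 1) / 2 := by
  constructor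
  · rintro ⟨h1, h2⟩
    obtain ⟨c, s, hs, hi⟩ := exists_tri i
    obtain ⟨c', s', hs', hj⟩ := exists_tri (i + n + 1)
    rw [hi, a_tri c s hs] at h1
    rw [hj, a_tri c' s' hs'] at h2
    obtain ⟨rfl, rfl⟩ := pair_unique hn hs hs' h1 h2 (by rw [← hj, hi])
    simpa using hi
  · rintro rfl
    have h1 := a_tri n 0 (Nat.zero_le n)
    have h2 := a_tri (n + 1) 0 (Nat.zero_le _)
    rw [tri_succ] at h2
    rw [Nat.add_zero, Nat.sub_zero] at h1 h2
    refine ⟨?_, ?_⟩
    · rw [h1]
      have : (n + 1) ^ 2 = n ^ 2 + (2 * n + 1) := by ring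
      omega
    · rw [add_assoc, h2]
      have : (n + 1 + 1) ^ 2 = (n + 1) ^ 2 + (2 * n + 3) := by ring
      omega

theorem a_window (n t : ℕ) (ht : t < n) : a (n * (n + 1) / 2 + (n - t)) = (n + 1 - t) * (n + 1 + t) := by
  rw [a_tri n (n - t) (by omega)]
  obtain ⟨r, rfl⟩ : ∃ r, n = t + r := ⟨n - t, by omega⟩
  have e1 : t + r - (t + r - t) = t := by omega
  have e2 : t + r + 1 - t = r + 1 := by omega
  rw [e1, e2]
  have : (t + r + 1) ^ 2 = t ^ 2 + (r + 1) * (t + r + 1 + t) := by ring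
  omega

theorem claim_iff (n : ℕ) (hn : 1 ≤ n) : (∀ i, Claim n i) ↔ IsSumTwoPrimes (2 * n + 2) := by
  constructor
  · intro h
    obtain ⟨h1, h2⟩ := (index_unique n (n * (n + 1) / 2) hn).mpr rfl
    obtain ⟨k, hk1, hk2, p, q, hp, hq, hpq⟩ := h _ h1 h2
    obtain ⟨t, ht, rfl⟩ : ∃ t, t < n ∧ k = n * (n + 1) / 2 + (n - t) :=
      ⟨n - (k - n * (n + 1) / 2), by omega, by omega⟩
    rw [a_window n t ht] at hpq
    obtain ⟨x, hx⟩ : ∃ x, x = n + 1 - t := ⟨_, rfl⟩
    obtain ⟨y, hy⟩ : ∃ y, y = n + 1 + t := ⟨_, rfl⟩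
    have hx2 : 2 ≤ x := by omega
    have hy2 : 2 ≤ y := by omega
    have hxy : x + y = 2 * n + 2 := by omega
    rw [← hx, ← hy] at hpq
    -- a product of two numbers at least two that is a semiprime has prime factors
    have hcases : (x = p ∧ y = q) ∨ (x = q ∧ y = p) := by
      have hpd : p ∣ x * y := ⟨q, hpq⟩
      rcases (Nat.Prime.dvd_mul hp).mp hpd with ⟨z, hz⟩ | ⟨z, hz⟩
      · have hzq : z * y = q := by
          have : p * (z * y) = p * q := by rw [← hpq, hz]; ring
          exact Nat.eq_of_mul_eq_mul_left hp.pos this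
        rcases (Nat.dvd_prime hq).mp ⟨y, hzq.symm⟩ with hz1 | hzq'
        · left
          rw [hz1] at hz hzq
          exact ⟨by omega, by omega⟩
        · exfalso
          rw [hzq'] at hzq
          have : y = 1 := Nat.eq_of_mul_eq_mul_left hq.pos (by omega)
          omega
      · have hzq : z * x = q := by
          have : p * (z * x) = p * q := by rw [← hpq, hz]; ring
          exact Nat.eq_of_mul_eq_mul_left hp.pos this
        rcases (Nat.dvd_prime hq).mp ⟨x, hzq.symm⟩ with hz1 | hzq'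
        · right
          rw [hz1] at hz hzq
          exact ⟨by omega, by omega⟩
        · exfalso
          rw [hzq'] at hzq
          have : x = 1 := Nat.eq_of_mul_eq_mul_left hq.pos (by omega)
          omega
    rcases hcases with ⟨h1, h2⟩ | ⟨h1, h2⟩
    · exact ⟨p, q, hp, hq, by omega⟩
    · exact ⟨p, q, hp, hq, by omega⟩
  · rintro ⟨p, q, hp, hq, hpq⟩ i h1 h2
    have hi := (index_unique n i hn).mp ⟨h1, h2⟩
    subst hi
    have hp2 := hp.two_le
    have hq2 := hq.two_le
    wlog hle : p ≤ q generalizing p q with H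
    · exact H q p hq hp (by omega) hq2 hp2 (by omega)
    obtain ⟨t, ht⟩ : ∃ t, t = n + 1 - p := ⟨_, rfl⟩
    have htn : t < n := by omega
    refine ⟨n * (n + 1) / 2 + (n - t), by omega, by omega, p, q, hp, hq, ?_⟩
    rw [a_window n t htn]
    have e1 : n + 1 - t = p := by omega
    have e2 : n + 1 + t = q := by omega
    rw [e1, e2]

/-- For every `n ≥ 1` the assertion of the question at `n` (for all indices `i`) holds if and only
if `2n+2` is a sum of two primes; hence the whole question is equivalent to the binary Goldbach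
conjecture. -/
theorem result :
    (∀ n : ℕ, 1 ≤ n → ((∀ i, Claim n i) ↔ IsSumTwoPrimes (2 * n + 2))) ∧
    ((∀ n i : ℕ, 1 ≤ n → Claim n i) ↔ ∀ N : ℕ, 2 ≤ N → IsSumTwoPrimes (2 * N)) := by
  refine ⟨claim_iff, ?_⟩
  constructor
  · intro h N hN
    obtain ⟨n, rfl⟩ : ∃ n, N = n + 1 := ⟨N - 1, by omega⟩
    have := (claim_iff n (by omega)).mp (fun i => h n i (by omega))
    rwa [show 2 * (n + 1) = 2 * n + 2 by ring]
  · intro h n i hn
    refine (claim_iff n hn).mpr ?_ i
    have := h (n + 1) (by omega)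
    rwa [show 2 * (n + 1) = 2 * n + 2 by ring] at this

end Pool.Agent.Results.MP_31dd60_nt.QOneIffGoldbach
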